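import Pool.Agent.Q296.Surprise.LazyMain

/-!
# The surprise bound holds for chains whose holding probabilities are bounded below

If every holding probability of a finite reversible chain is at least `δ > 0`, then
`P_x(τ(y) = t) ≤ (16 / (δ t)) √(max (1, log (1 / π(x))))` for all states `x, y` and all `t ≥ 1`.
-/

namespace Pool.Agent.Results.MP_e25d14_pr.LazyChains

open Q296.Surprise

theorem result {Ω : Type*} [Fintype Ω] [DecidableEq Ω] {P : Matrix Ω Ω ℝ} {π : Ω → ℝ}
    (h : IsRevChain P π) {δ : ℝ} (hδ : 0 < δ) (hold : ∀ z, δ ≤ P z z) (x y : Ω) {t : ℕ}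
    (ht : 1 ≤ t) :
    hit P y t x ≤ 16 / (δ * t) * Real.sqrt (max 1 (Real.log (1 / π x))) :=
  lazy_bound h hδ hold x y ht

end Pool.Agent.Results.MP_e25d14_pr.LazyChains
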