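import Pool.Agent.Q296.Surprise.PathMain

/-!
# The surprise bound with a square root of a logarithm fails for general reversible chains

For every `C` there are a finite reversible Markov chain (irreducible, with a state that has
positive holding probability), states `x, y` and a time `t ≥ 1` with
`P_x(τ(y) = t) > (C / t) √(max (1, log (1 / π(x))))`.
-/

namespace Pool.Agent.Results.MP_e25d14_pr.NearlyDeterministicPath

open Q296.Surprise

theorem result (C : ℝ) :
    ∃ (n : ℕ) (P : Matrix (Fin n) (Fin n) ℝ) (π : Fin n → ℝ) (x y : Fin n) (t : ℕ),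
      IsRevChain P π ∧ (∀ u v, ∃ k : ℕ, 0 < (P ^ k) u v) ∧ (∃ u, 0 < P u u) ∧ 1 ≤ t ∧
      C / t * Real.sqrt (max 1 (Real.log (1 / π x))) < hit P y t x := by
  obtain ⟨n, hn, h⟩ := path_main C
  exact ⟨n + 1, PP n, pp n, 0, Fin.last n, n, isRevChain hn, PP_irred n hn, ⟨0, PP_diag_zero n⟩,
    hn, h⟩

end Pool.Agent.Results.MP_e25d14_pr.NearlyDeterministicPath
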